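import Mathlib

/-!
# A lower bound for a discrete Cauchy transform outside a small set
-/

set_option autoImplicit false

open Finset

namespace Pool.Agent.H590Z.HC

namespace H408

theorem norm_den (m n : ℤ) : ‖(m : ℂ) + 1 / 2 - n‖ = |(m : ℝ) + 1 / 2 - n| := by
  rw [← Real.norm_eq_abs, ← Complex.norm_real]
  push_cast
  rfl

theorem half_le (m n : ℤ) : (1 / 2 : ℝ) ≤ |(m : ℝ) + 1 / 2 - n| := by
  rcases le_or_gt n m with h | h
  · have : (n : ℝ) ≤ m := by exact_mod_cast h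
    exact le_abs.2 (Or.inl (by linarith))
  · have : (m : ℝ) + 1 ≤ n := by exact_mod_cast h
    exact le_abs.2 (Or.inr (by linarith))

theorem norm_le_of_hasSum {f : ℤ → ℂ} {a : ℂ} {B : ℝ} (h : HasSum f a)
    (hB : ∀ T : Finset ℤ, ∑ n ∈ T, ‖f n‖ ≤ B) : ‖a‖ ≤ B :=
  le_of_tendsto' (Filter.Tendsto.norm h) fun T => (norm_sum_le _ _).trans (hB T)

end H408

open H408 in
theorem phi_lower (c : ℤ → ℂ) (M e r : ℝ) (L q : ℕ) (G : Finset ℤ)
    (hWk : ∀ (c : ℤ → ℂ) (F G : Finset ℤ) (lam : ℝ), 0 < lam →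
      (∀ m ∈ G, lam < ‖∑ n ∈ F, c n / ((m : ℂ) + 1 / 2 - n)‖) → lam * G.card ≤ 64 * ∑ n ∈ F, ‖c n‖)
    (hL : 1 ≤ L) (hM : 1 ≤ M) (hq : 1000 * M ^ 2 ≤ 2 ^ q) (hc : HasSum c 1)
    (hcM : ∀ F : Finset ℤ, ∑ n ∈ F, ‖c n‖ ≤ M ^ 2)
    (he : ∀ F : Finset ℤ, (∀ n ∈ F, (L : ℤ) ≤ |n| ∧ |n| ≤ 2 ^ (12 * q) * L) → ∑ n ∈ F, ‖c n‖ ≤ e)
    (htail : ∀ F : Finset ℤ, (∀ n ∈ F, (L : ℤ) ≤ |n|) → ∑ n ∈ F, ‖c n‖ ≤ 1 / 16)
    (hr : 2 ^ (8 * q) * L ≤ r) (hr' : r ≤ 2 ^ (10 * q) * L)
    (hG : ∀ m ∈ G, (2 : ℤ) ^ (6 * q) * L ≤ |m| ∧ ((|m| : ℤ) : ℝ) ≤ r ∧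
      ‖∑' n : ℤ, c n / ((m : ℂ) + 1 / 2 - n)‖ < 1 / (4 * r)) :
    (G.card : ℝ) ≤ 512 * e * r := by
  classical
  have hL' : (1 : ℝ) ≤ L := by exact_mod_cast hL
  have hM2 : (1 : ℝ) ≤ M ^ 2 := one_le_pow₀ hM
  have hQ : (1000 : ℝ) ≤ 2 ^ q := by linarith
  have hr1 : (1 : ℝ) ≤ r :=
    le_trans (one_le_mul_of_one_le_of_one_le (one_le_pow₀ (by norm_num)) hL') hr
  have hr0 : 0 < r := by linarith
  set R : ℤ := 2 ^ (12 * q) * L with hR
  set F : Finset ℤ := (Finset.Icc (-R) R).filter fun n => (L : ℤ) ≤ |n| with hF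
  have memF : ∀ n, n ∈ F ↔ (L : ℤ) ≤ |n| ∧ |n| ≤ R := fun n => by
    rw [hF, Finset.mem_filter, Finset.mem_Icc, ← abs_le, and_comm]
  have key : ∀ m ∈ G, 1 / (8 * r) < ‖∑ n ∈ F, c n / ((m : ℂ) + 1 / 2 - n)‖ := by
    intro m hm
    obtain ⟨g1, g2, g3⟩ := hG m hm
    by_contra hS
    have hS' := not_lt.1 hS
    have g1' : (2 : ℝ) ^ (6 * q) * L ≤ |(m : ℝ)| := by exact_mod_cast g1
    have g2' : |(m : ℝ)| ≤ r := by exact_mod_cast g2
    set z : ℂ := (m : ℂ) + 1 / 2 with hz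
    have hzn : ∀ n : ℤ, ‖z - n‖ = |(m : ℝ) + 1 / 2 - n| := fun n => norm_den m n
    have hz0 : ∀ n : ℤ, z - n ≠ 0 := fun n h => by
      have h1 := half_le m n
      rw [← hzn, h, norm_zero] at h1
      norm_num at h1
    have hz2 : ‖z‖ ≤ 2 * r := by
      have h1 := hzn 0
      simp only [Int.cast_zero, sub_zero] at h1
      rw [h1]
      have := abs_add_le (m : ℝ) (1 / 2)
      rw [abs_of_pos (show (0 : ℝ) < 1 / 2 by norm_num)] at this
      linarith
    have hsum : Summable fun n : ℤ => c n / (z - n) := by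
      refine Summable.of_norm_bounded (g := fun n => 2 * ‖c n‖) (hc.summable.norm.mul_left 2)
        fun n => ?_
      rw [norm_div, hzn, div_le_iff₀ (lt_of_lt_of_le (by norm_num) (half_le m n))]
      have := half_le m n
      nlinarith [norm_nonneg (c n)]
    set Φ : ℂ := ∑' n : ℤ, c n / (z - n) with hΦ
    have h1 : HasSum (fun n : ℤ => z * (c n / (z - n)) - c n) (z * Φ - 1) :=
      (hsum.hasSum.mul_left z).sub hc
    have h2 : HasSum (fun n : ℤ => if n ∈ F then z * (c n / (z - n)) - c n else 0)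
        (∑ n ∈ F, (z * (c n / (z - n)) - c n)) := by
      have := hasSum_sum_of_ne_finset_zero (L := SummationFilter.unconditional ℤ)
        (f := fun n : ℤ => if n ∈ F then z * (c n / (z - n)) - c n else 0) (s := F)
        fun n hn => if_neg hn
      rwa [Finset.sum_congr rfl fun n hn => if_pos hn] at this
    have h3 := h1.sub h2
    have hw : ∀ n : ℤ, ‖z * (c n / (z - n)) - c n‖ = ‖c n‖ * (|(n : ℝ)| / ‖z - n‖) := fun n => by
      have : z * (c n / (z - n)) - c n = c n * (n / (z - n)) := by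
        field_simp [hz0 n]
        ring
      rw [this, norm_mul, norm_div, Complex.norm_intCast]
    have h4 : ∀ n : ℤ, ‖(z * (c n / (z - n)) - c n) -
        (if n ∈ F then z * (c n / (z - n)) - c n else 0)‖ ≤
        1 / (500 * M ^ 2) * ‖c n‖ + 2 * (if (L : ℤ) ≤ |n| then ‖c n‖ else 0) := fun n => by
      have hp : 0 < ‖z - n‖ := norm_pos_iff.2 (hz0 n)
      have hc0 := norm_nonneg (c n)
      have t1 : |(m : ℝ)| - 1 / 2 - |(n : ℝ)| ≤ ‖z - n‖ := by
        rw [hzn]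
        have a1 := abs_add_le ((m : ℝ) + 1 / 2 - n) ((n : ℝ) - 1 / 2)
        have a2 := abs_sub (n : ℝ) (1 / 2)
        rw [abs_of_pos (show (0 : ℝ) < 1 / 2 by norm_num)] at a2
        rw [show (m : ℝ) + 1 / 2 - n + (n - 1 / 2) = m by ring] at a1
        linarith
      have t2 : |(n : ℝ)| - 2 * r ≤ ‖z - n‖ := by
        have a1 := norm_sub_norm_le (n : ℂ) z
        rw [norm_sub_rev, Complex.norm_intCast] at a1
        linarith
      by_cases hn : n ∈ F
      · rw [if_pos hn, sub_self, norm_zero]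
        have : 0 ≤ (if (L : ℤ) ≤ |n| then ‖c n‖ else 0) := by split_ifs <;> positivity
        positivity
      · rw [if_neg hn, sub_zero, hw]
        by_cases hl : (L : ℤ) ≤ |n|
        · rw [if_pos hl]
          have a1 : R < |n| := not_le.1 fun h => hn ((memF n).2 ⟨hl, h⟩)
          have a2 : (2 : ℝ) ^ (12 * q) * L < |(n : ℝ)| := by
            rw [hR] at a1
            exact_mod_cast a1
          have a3 : (2 : ℝ) ^ (12 * q) = 2 ^ (10 * q) * (2 ^ q * 2 ^ q) := by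
            rw [← pow_add, ← pow_add]
            congr 1
            ring
          have a4 : 4 * r ≤ (2 : ℝ) ^ (12 * q) * L := by
            have b1 : (4 : ℝ) ≤ 2 ^ q * 2 ^ q := by nlinarith
            have b2 : (0 : ℝ) ≤ 2 ^ (10 * q) * L := by positivity
            rw [a3]
            nlinarith
          have a5 : |(n : ℝ)| / ‖z - n‖ ≤ 2 := by
            rw [div_le_iff₀ hp]
            linarith
          have a6 : 0 ≤ 1 / (500 * M ^ 2) * ‖c n‖ := by positivity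
          nlinarith
        · rw [if_neg hl, mul_zero, add_zero, mul_comm]
          refine mul_le_mul_of_nonneg_right ?_ hc0
          have a1 : |(n : ℝ)| < L := by exact_mod_cast not_le.1 hl
          have a2 : (2 : ℝ) ^ q ≤ 2 ^ (6 * q) := pow_le_pow_right₀ (by norm_num) (by omega)
          rw [div_le_div_iff₀ hp (by positivity), one_mul]
          have a3 : 1000 * M ^ 2 * L ≤ (2 : ℝ) ^ (6 * q) * L :=
            mul_le_mul_of_nonneg_right (hq.trans a2) (by positivity)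
          have a4 : |(n : ℝ)| * (500 * M ^ 2) ≤ L * (500 * M ^ 2) :=
            mul_le_mul_of_nonneg_right a1.le (by positivity)
          have a5 : (L : ℝ) ≤ M ^ 2 * L := le_mul_of_one_le_left (by positivity) hM2
          nlinarith
    have h5 := norm_le_of_hasSum h3 (B := 1 / 500 + 1 / 8) fun T => by
      refine (Finset.sum_le_sum fun n _ => h4 n).trans ?_
      rw [Finset.sum_add_distrib, ← Finset.mul_sum, ← Finset.mul_sum, ← Finset.sum_filter]
      have a1 := htail (T.filter fun n => (L : ℤ) ≤ |n|) fun n hn => (Finset.mem_filter.1 hn).2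
      have a2 : 1 / (500 * M ^ 2) * ∑ n ∈ T, ‖c n‖ ≤ 1 / (500 * M ^ 2) * M ^ 2 :=
        mul_le_mul_of_nonneg_left (hcM T) (by positivity)
      have a3 : 1 / (500 * M ^ 2) * M ^ 2 = 1 / 500 := by field_simp
      linarith
    have h6 : ‖∑ n ∈ F, (z * (c n / (z - n)) - c n)‖ ≤ 1 / 4 + 1 / 16 := by
      rw [Finset.sum_sub_distrib, ← Finset.mul_sum]
      refine (norm_sub_le _ _).trans (add_le_add ?_ ?_)
      · rw [norm_mul]
        calc _ ≤ 2 * r * (1 / (8 * r)) := mul_le_mul hz2 hS' (norm_nonneg _) (by positivity)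
          _ = 1 / 4 := by field_simp; norm_num
      · exact (norm_sum_le _ _).trans (htail F fun n hn => ((memF n).1 hn).1)
    have h7 : ‖z * Φ‖ ≤ 1 / 2 := by
      rw [norm_mul]
      calc _ ≤ 2 * r * (1 / (4 * r)) := mul_le_mul hz2 g3.le (norm_nonneg _) (by positivity)
        _ = 1 / 2 := by field_simp; norm_num
    have h8 : ‖z * Φ - 1‖ ≤ 1 / 500 + 1 / 8 + (1 / 4 + 1 / 16) := by
      have := norm_add_le (z * Φ - 1 - ∑ n ∈ F, (z * (c n / (z - n)) - c n))
        (∑ n ∈ F, (z * (c n / (z - n)) - c n))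
      rw [sub_add_cancel] at this
      linarith
    have h9 := norm_sub_le (z * Φ) (z * Φ - 1)
    rw [sub_sub_cancel, norm_one] at h9
    linarith
  have h1 := hWk c F G (1 / (8 * r)) (by positivity) key
  have h2 := he F fun n hn => (memF n).1 hn
  rw [div_mul_eq_mul_div, one_mul, div_le_iff₀ (by positivity)] at h1
  nlinarith

end Pool.Agent.H590Z.HC
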